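import Pool.Agent.K9h89.TD.VA

/-!
# The degree of twisted commutativity of products of acylindrically hyperbolic groups is zero

Let `G` be a finitely generated group which is a direct product of finitely many groups each of
which is finite or acylindrically hyperbolic, at least one of them acylindrically hyperbolic, and
of a group `V` which is virtually abelian or of subexponential growth. Let `X` be a finite
generating set of `G` each of whose elements lies in `V` or in the product `H` of the other
factors (this is no condition if `V` is trivial). Then for every endomorphism `φ` of `G` the degree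
of twisted commutativity `tdc_X(φ, G)` is zero; the proportion of the pairs `(x, y)` in the ball of
radius `n` with `x y = y φ(x)` tends to zero.

Idea of the proof for `V = 1`. If the proportion does not tend to zero, then for infinitely many `n`
there are many `x` in the ball such that the solutions `y` of `x y = y φ(x)` fill a positive
proportion of the ball; they form a coset of the centralizer of `x`. Let `J` be the set of the
factors in which the short elements of these centralizers leave a fixed finite set. By compactness
all these `x` lie in `∏_{i ∈ J} C(g_i) × ∏_{i ∉ J} A_i` for fixed elements `g_i` outside of fixed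
finite sets. In an acylindrically hyperbolic group such centralizers are thin: for suitable `e v` in
a finite set every element has boundedly many expressions `c * e v * v` with `c` in the centralizer.
Multiplying suffixes of the solutions `y` from the left by `x * e v` one finds that the sum of
`1 / f_J(|x|)`, over all `x` as above, converges, where `f_J` is the growth function of the quotient
`∏_{i ∈ J} A_i`. This contradicts the positive density of these `x` for infinitely many radii. No
information on the growth of `G` is used.

In general one fixes the components `a`, `b` in `V` of `x` and `y`. The remaining equation in `H`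
is `x y = y ψ(x)` for a function `ψ` which depends on `a`; the proof above does not use that `φ` is
a homomorphism. Thin infinite subsets also show that the balls of `H` grow uniformly exponentially,
so that the contribution of `(a, b)` is at most `C θ ^ (|a| + |b|)` for some `θ < 1`; the sum of
these bounds converges since `V` has subexponential growth.
-/

set_option autoImplicit false

namespace Pool.Agent.Results.MP_dff590_al.AcylHypProducts

open Filter Topology

/-- The ball of radius `n` about the identity in the word metric of `X`: the products of at most
`n` elements of `X` and inverses of elements of `X`. -/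
def Ball {G : Type*} [Group G] (X : Finset G) (n : ℕ) : Set G :=
  {g | ∃ l : List G, l.length ≤ n ∧ (∀ x ∈ l, x ∈ X ∨ x⁻¹ ∈ X) ∧ l.prod = g}

/-- The proportion of the pairs `(x, y)` of elements of the ball of radius `n` with
`x y = y φ(x)`. -/
noncomputable def tdcSeq {G : Type*} [Group G] (X : Finset G) (φ : G →* G) (n : ℕ) : ℝ :=
  (Nat.card {p : G × G // p.1 ∈ Ball X n ∧ p.2 ∈ Ball X n ∧ p.1 * p.2 = p.2 * φ p.1} : ℝ) /
    (Nat.card (Ball X n) : ℝ) ^ 2

/-- The degree of twisted commutativity `tdc_X(φ, G)`. -/
noncomputable def tdc {G : Type*} [Group G] (X : Finset G) (φ : G →* G) : ℝ :=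
  limsup (tdcSeq X φ) atTop

/-- Virtually cyclic groups. -/
def VirtuallyCyclic (G : Type) [Group G] : Prop :=
  ∃ C : Subgroup G, IsCyclic C ∧ C.FiniteIndex

/-- Gromov hyperbolic metric spaces (four point condition). -/
def IsHyperbolic (S : Type) [MetricSpace S] : Prop :=
  ∃ δ : ℝ, ∀ x y z w : S,
    dist x y + dist z w ≤ max (dist x z + dist y w) (dist x w + dist y z) + δ

/-- Geodesic metric spaces: any two points are joined by an isometric copy of an interval. -/
def IsGeodesic (S : Type) [MetricSpace S] : Prop :=
  ∀ x y : S, ∃ γ : ℝ → S, γ 0 = x ∧ γ (dist x y) = y ∧
    ∀ s t : ℝ, 0 ≤ s → s ≤ t → t ≤ dist x y → dist (γ s) (γ t) = t - s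

/-- Acylindrical actions: for every `ε > 0` there are `R` and `N` such that for all points `x, y` at
distance at least `R` at most `N` elements of the group move both `x` and `y` by at most `ε`. -/
def IsAcylindrical (G S : Type) [Group G] [MetricSpace S] [MulAction G S] : Prop :=
  ∀ ε : ℝ, 0 < ε → ∃ (R : ℝ) (N : ℕ), ∀ x y : S, R ≤ dist x y →
    {g : G | dist x (g • x) ≤ ε ∧ dist y (g • y) ≤ ε}.encard ≤ N

/-- Acylindrically hyperbolic groups (Osin's definition): the group is not virtually cyclic and
acts isometrically and acylindrically, with an unbounded orbit, on a geodesic Gromov hyperbolic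
metric space. -/
def AcylindricallyHyperbolic (G : Type) [Group G] : Prop :=
  ¬ VirtuallyCyclic G ∧ ∃ (S : Type) (_ : MetricSpace S) (_ : MulAction G S),
    (∀ (g : G) (x y : S), dist (g • x) (g • y) = dist x y) ∧
    IsGeodesic S ∧ IsHyperbolic S ∧ IsAcylindrical G S ∧
    ∃ x : S, ∀ B : ℝ, ∃ g : G, B < dist x (g • x)

/-- Virtually abelian groups. -/
def VirtuallyAbelian (V : Type*) [Group V] : Prop :=
  ∃ B : Subgroup V, B.FiniteIndex ∧ ∀ a ∈ B, ∀ b ∈ B, a * b = b * a

/-- Groups of subexponential growth: for every finite subset `Y` and every `c > 1` the balls of `Y`
have at most `C * c ^ n` elements. -/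
def SubexponentialGrowth (V : Type*) [Group V] : Prop :=
  ∀ (Y : Finset V) (c : ℝ), 1 < c → ∃ C : ℝ, ∀ n, (Nat.card (Ball Y n) : ℝ) ≤ C * c ^ n

/-- If `G` is the direct product of a virtually abelian group `V` (or a group of subexponential
growth) and of finitely many finite or acylindrically hyperbolic groups, at least one of them
acylindrically hyperbolic, then `tdc_X(φ, G) = 0` for every endomorphism `φ` and every finite
generating set `X` each of whose elements has trivial component in `V` or trivial component in the
product of the other factors (no condition if `V` is trivial); moreover the upper limit defining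
`tdc` is a limit. -/
theorem result {V : Type*} [Group V] (hV : VirtuallyAbelian V ∨ SubexponentialGrowth V)
    {ι : Type} [Fintype ι] (A : ι → Type) [∀ i, Group (A i)]
    (hA : ∀ i, Finite (A i) ∨ AcylindricallyHyperbolic (A i))
    (hA' : ∃ i, AcylindricallyHyperbolic (A i))
    {G : Type*} [Group G] (e : G ≃* V × (∀ i, A i))
    (X : Finset G) (hX : Subgroup.closure (X : Set G) = ⊤)
    (hX' : ∀ x ∈ X, (e x).1 = 1 ∨ (e x).2 = 1) (φ : G →* G) :
    tdc X φ = 0 ∧ Tendsto (tdcSeq X φ) atTop (𝓝 0) := by
  have hsub : SubexponentialGrowth V := by
    rcases hV with ⟨B, hB, hab⟩ | h
    · exact fun Y c hc => Pool.Agent.K9h89.TDU.sub_of_va B hB hab Y c hc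
    · exact h
  have h := Pool.Agent.K9h89.TDU.final A hA hA' e X hX hX' hsub φ
  exact ⟨h.limsup_eq, h⟩

end Pool.Agent.Results.MP_dff590_al.AcylHypProducts
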